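import Pool.Agent.Q157.SC.Stm

/-!
# Jobs b3 and b2 of project SC
-/

set_option autoImplicit false

namespace Pool.Agent.Q25.SC

open Equiv Pool.Agent.Q157.SC

theorem le_card {V : Type} [Finite V] (c : V → Bool) (h : Nat.card V ≤ 3) : tr c ≤ 3 := by
  unfold tr
  exact (Finite.card_subtype_le _).trans h

theorem b2 (h1 : S_bas) : S_b2 := by
  obtain ⟨-, -, hg, -, -, -⟩ := h1
  refine ⟨⟨![fun _ => false, fun x => decide (x = 0), fun _ => true], ?_, ?_⟩,
    ⟨![fun x => decide (x = 0), fun x => decide (x.1 = 0), fun x => !decide (x = 0)], ?_, ?_⟩⟩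
  · intro i
    have hc : Nat.card (ZMod 2) ≤ 3 := by rw [Nat.card_zmod]; norm_num
    exact hg _ _ (le_card _ hc) (le_card _ hc)
  · intro i j
    have t0 : tr (fun _ : ZMod 2 => false) = 0 := by
      unfold tr; rw [Nat.card_eq_fintype_card]; decide
    have t1 : tr (fun x : ZMod 2 => decide (x = 0)) = 1 := by
      unfold tr; rw [Nat.card_eq_fintype_card]; decide
    have t2 : tr (fun _ : ZMod 2 => true) = 2 := by
      unfold tr; rw [Nat.card_eq_fintype_card]; decide
    fin_cases i <;> fin_cases j <;> intro h <;> first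
      | rfl
      | (exfalso
         simp only [Matrix.cons_val_zero, Matrix.cons_val_one, Matrix.cons_val_two,
           Matrix.head_cons, Matrix.tail_cons, Fin.zero_eta, Fin.mk_one, Fin.reduceFinMk,
           Matrix.cons_val] at h
         omega)
  · have t0 : tr (fun x : ZMod 2 × ZMod 2 => decide (x = 0)) = 1 := by
      unfold tr; rw [Nat.card_eq_fintype_card]; decide
    have t0' : tr (fun x : ZMod 2 × ZMod 2 => !decide (x = 0)) = 3 := by
      unfold tr; rw [Nat.card_eq_fintype_card]; decide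
    have t1 : tr (fun x : ZMod 2 × ZMod 2 => decide (x.1 = 0)) = 2 := by
      unfold tr; rw [Nat.card_eq_fintype_card]; decide
    have t1' : tr (fun x : ZMod 2 × ZMod 2 => !decide (x.1 = 0)) = 2 := by
      unfold tr; rw [Nat.card_eq_fintype_card]; decide
    have t2' : tr (fun x : ZMod 2 × ZMod 2 => !!decide (x = 0)) = 1 := by
      unfold tr; rw [Nat.card_eq_fintype_card]; decide
    intro i
    fin_cases i
    · exact hg _ _ (by show tr (fun x : ZMod 2 × ZMod 2 => decide (x = 0)) ≤ 3; omega)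
        (by show tr (fun x : ZMod 2 × ZMod 2 => !decide (x = 0)) ≤ 3; omega)
    · exact hg _ _ (by show tr (fun x : ZMod 2 × ZMod 2 => decide (x.1 = 0)) ≤ 3; omega)
        (by show tr (fun x : ZMod 2 × ZMod 2 => !decide (x.1 = 0)) ≤ 3; omega)
    · exact hg _ _ (by show tr (fun x : ZMod 2 × ZMod 2 => !decide (x = 0)) ≤ 3; omega)
        (by show tr (fun x : ZMod 2 × ZMod 2 => !!decide (x = 0)) ≤ 3; omega)
  · intro i j
    have t0 : tr (fun x : ZMod 2 × ZMod 2 => decide (x = 0)) = 1 := by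
      unfold tr; rw [Nat.card_eq_fintype_card]; decide
    have t1 : tr (fun x : ZMod 2 × ZMod 2 => decide (x.1 = 0)) = 2 := by
      unfold tr; rw [Nat.card_eq_fintype_card]; decide
    have t2 : tr (fun x : ZMod 2 × ZMod 2 => !decide (x = 0)) = 3 := by
      unfold tr; rw [Nat.card_eq_fintype_card]; decide
    fin_cases i <;> fin_cases j <;> intro h <;> first
      | rfl
      | (exfalso
         simp only [Matrix.cons_val_zero, Matrix.cons_val_one, Matrix.cons_val_two,
           Matrix.head_cons, Matrix.tail_cons, Fin.zero_eta, Fin.mk_one, Fin.reduceFinMk,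
           Matrix.cons_val] at h
         omega)

/-- The plane over `ZMod 3`. -/
abbrev P3 : Type := ZMod 3 × ZMod 3

/-- Affine map with the given values. -/
def mm (a b d x : P3) : P3 := a + x.1.val • (b - a) + x.2.val • (d - a)

theorem aff_mm (f : P3 → P3) (hf : Aff f) (x : P3) : f x = mm (f 0) (f (1, 0)) (f (0, 1)) x := by
  have hadd : ∀ x z, f (x + z) - f 0 = (f x - f 0) + (f z - f 0) := by
    intro x z
    have h := hf x 0 z
    rw [sub_zero] at h
    rw [h]
    abel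
  let g : P3 →+ P3 := ⟨⟨fun x => f x - f 0, sub_self _⟩, hadd⟩
  have hx : x = x.1.val • ((1, 0) : P3) + x.2.val • ((0, 1) : P3) := by
    refine Prod.ext ?_ ?_
    · show x.1 = x.1.val • (1 : ZMod 3) + x.2.val • (0 : ZMod 3)
      rw [smul_zero, add_zero, nsmul_eq_mul, mul_one, ZMod.natCast_zmod_val]
    · show x.2 = x.1.val • (0 : ZMod 3) + x.2.val • (1 : ZMod 3)
      rw [smul_zero, zero_add, nsmul_eq_mul, mul_one, ZMod.natCast_zmod_val]
  have h1 : g x = x.1.val • g (1, 0) + x.2.val • g (0, 1) := by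
    conv_lhs => rw [hx]
    rw [map_add, map_nsmul, map_nsmul]
  have h2 : f x - f 0 = x.1.val • (f (1, 0) - f 0) + x.2.val • (f (0, 1) - f 0) := h1
  unfold mm
  rw [add_assoc, ← h2]
  abel

/-- Both coordinates are not zero. -/
def ca : P3 → Bool := fun x => !decide (x.1 = 0) && !decide (x.2 = 0)

/-- The two axes. -/
def cb : P3 → Bool := fun x => !ca x

/-- Three points. -/
def cc : P3 → Bool := fun x => decide (x = (0, 0)) || decide (x = (1, 0)) || decide (x = (0, 1))

theorem dec_ca : ∀ a b d : P3, (∀ x, ca (mm a b d x) = ca x) →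
    ∀ x, mm a b d (mm a b d (mm a b d (mm a b d x))) = x := by
  decide +kernel

theorem sp_ca : ∀ x₀ v : P3, ∃ y₁ y₂ y₃ : P3, (ca y₁ = true ∧ y₁ ≠ x₀) ∧ (ca y₂ = true ∧ y₂ ≠ x₀) ∧
    (ca y₃ = true ∧ y₃ ≠ x₀) ∧ v = y₁ - y₂ + y₃ := by
  decide +kernel

theorem sp_cb : ∀ x₀ v : P3, ∃ y₁ y₂ y₃ : P3, (cb y₁ = true ∧ y₁ ≠ x₀) ∧ (cb y₂ = true ∧ y₂ ≠ x₀) ∧
    (cb y₃ = true ∧ y₃ ≠ x₀) ∧ v = y₁ - y₂ + y₃ := by
  decide +kernel

theorem sp_cc : ∀ v : P3, ∃ y₁ y₂ y₃ : P3, cc y₁ = true ∧ cc y₂ = true ∧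
    cc y₃ = true ∧ v = y₁ - y₂ + y₃ := by
  decide +kernel

theorem spn_of (c : P3 → Bool) (h : ∀ x₀ v : P3, ∃ y₁ y₂ y₃ : P3, (c y₁ = true ∧ y₁ ≠ x₀) ∧
    (c y₂ = true ∧ y₂ ≠ x₀) ∧ (c y₃ = true ∧ y₃ ≠ x₀) ∧ v = y₁ - y₂ + y₃) : Spn c := by
  intro x₀ W hW hy v
  obtain ⟨y₁, y₂, y₃, h1, h2, h3, rfl⟩ := h x₀ v
  exact hW _ (hy _ h1.1 h1.2) _ (hy _ h2.1 h2.2) _ (hy _ h3.1 h3.2)

theorem rig_ca : Rig ca := by
  intro f hf hop hc
  obtain ⟨m, hm, hfm⟩ := hop
  have h1 := dec_ca (f 0) (f (1, 0)) (f (0, 1)) (fun x => by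
    rw [← aff_mm f hf x]
    exact hc x)
  have h4 : f ^ 4 = 1 := by
    ext x : 1
    have h2 := h1 x
    rw [← aff_mm f hf, ← aff_mm f hf, ← aff_mm f hf, ← aff_mm f hf] at h2
    exact h2
  have d1 : orderOf f ∣ m := orderOf_dvd_of_pow_eq_one hfm
  have d2 : orderOf f ∣ 4 := orderOf_dvd_of_pow_eq_one h4
  have hco : Nat.Coprime m 4 := by
    have : Nat.Coprime m 2 := Nat.coprime_two_right.2 hm
    exact this.pow_right 2
  have d3 : orderOf f ∣ Nat.gcd m 4 := Nat.dvd_gcd d1 d2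
  rw [hco] at d3
  exact orderOf_eq_one_iff.1 (Nat.dvd_one.1 d3)

theorem tr_ca : tr ca = 4 := by
  unfold tr; rw [Nat.card_eq_fintype_card]; decide +kernel

theorem tr_cb : tr cb = 5 := by
  unfold tr; rw [Nat.card_eq_fintype_card]; decide +kernel

theorem tr_cc : tr cc = 3 := by
  unfold tr; rw [Nat.card_eq_fintype_card]; decide +kernel

theorem b3 (_h1 : S_gen) (h2 : S_bas) : S_b3 := by
  obtain ⟨-, hb, hg, hd, -, -⟩ := h2
  have rcb : Rig cb := (hd P3 ca).2.1 rig_ca
  refine ⟨⟨![fun _ => false, fun x => decide (x = 0), fun x => !decide (x = 0)], ?_, ?_⟩,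
    ⟨![ca, cb, cc], ?_, ?_⟩, ⟨ca, cb, rig_ca, spn_of ca sp_ca, rcb, spn_of cb sp_cb, ?_⟩⟩
  · intro i
    have hc : Nat.card (ZMod 3) ≤ 3 := by rw [Nat.card_zmod]
    exact hg _ _ (le_card _ hc) (le_card _ hc)
  · intro i j
    have t0 : tr (fun _ : ZMod 3 => false) = 0 := by
      unfold tr; rw [Nat.card_eq_fintype_card]; decide
    have t1 : tr (fun x : ZMod 3 => decide (x = 0)) = 1 := by
      unfold tr; rw [Nat.card_eq_fintype_card]; decide
    have t2 : tr (fun x : ZMod 3 => !decide (x = 0)) = 2 := by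
      unfold tr; rw [Nat.card_eq_fintype_card]; decide
    fin_cases i <;> fin_cases j <;> intro h <;> first
      | rfl
      | (exfalso
         simp only [Matrix.cons_val_zero, Matrix.cons_val_one, Matrix.cons_val_two,
           Matrix.head_cons, Matrix.tail_cons, Fin.zero_eta, Fin.mk_one, Fin.reduceFinMk,
           Matrix.cons_val] at h
         omega)
  · intro i
    fin_cases i
    · exact (hd P3 ca).2.2 rig_ca
    · exact (hd P3 cb).2.2 rcb
    · refine hb P3 cc tr_cc.le ?_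
      intro U hU hy v
      obtain ⟨y₁, y₂, y₃, k1, k2, k3, rfl⟩ := sp_cc v
      exact hU _ (hy _ k1) _ (hy _ k2) _ (hy _ k3)
  · intro i j
    have t0 := tr_ca
    have t1 := tr_cb
    have t2 := tr_cc
    fin_cases i <;> fin_cases j <;> intro h <;> first
      | rfl
      | (exfalso
         simp only [Matrix.cons_val_zero, Matrix.cons_val_one, Matrix.cons_val_two,
           Matrix.head_cons, Matrix.tail_cons, Fin.zero_eta, Fin.mk_one, Fin.reduceFinMk,
           Matrix.cons_val] at h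
         omega)
  · rw [tr_ca, tr_cb]
    norm_num

end Pool.Agent.Q25.SC
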